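import Mathlib
import Pool.Agent.Lib.MP_18f540_nt.Main

/-!
# Hausdorff dimension for linear forms with positive coefficients

For every real `w > 2` the set of pairs `(ξ, η)` such that, for some `c > 0`, the inequality
`|p ξ + q η + r| < c max(p, q)^(-w)` has infinitely many integer solutions with `p, q > 0`, has
Hausdorff dimension `1 + 3 / (w + 1)`.
-/

namespace Pool.Agent.Results.MP_18f540_nt.PositiveForms

open Pool.Agent.Lib.MP_18f540_nt

/-- The set `E(w)` of pairs `(ξ, η)` in the Euclidean plane for which there is `c > 0` such that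
`|p ξ + q η + r| < c (max p q)^(-w)` holds for infinitely many integer triples `(p, q, r)` with
`p > 0` and `q > 0`. -/
def E (w : ℝ) : Set (EuclideanSpace ℝ (Fin 2)) :=
  {v | ∃ c : ℝ, 0 < c ∧ {t : ℤ × ℤ × ℤ | 0 < t.1 ∧ 0 < t.2.1 ∧
    |(t.1 : ℝ) * v 0 + (t.2.1 : ℝ) * v 1 + (t.2.2 : ℝ)| <
      c * (max (t.1 : ℝ) (t.2.1 : ℝ)) ^ (-w)}.Infinite}

/-- `dim_H E(w) = 1 + 3 / (w + 1)` for every real `w > 2`. -/
theorem result : ∀ w : ℝ, 2 < w → dimH (E w) = ENNReal.ofReal (1 + 3 / (w + 1)) := by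
  intro w hw
  have h := ((EuclideanSpace.equiv (Fin 2) ℝ).trans
    (ContinuousLinearEquiv.finTwoArrow ℝ ℝ)).dimH_preimage (E' w)
  rw [dimH_E' hw] at h
  exact h

end Pool.Agent.Results.MP_18f540_nt.PositiveForms
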